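import Pool.Agent.V5helper87.ZM.Stm

/-!
# Project ZM, job HTP: the chain endomorphism defined by a retraction
-/

set_option autoImplicit false

open scoped Matrix Pointwise

namespace Pool.Agent.V5helper81.ZM

open Pool.Agent.H919R4.ZS Pool.Agent.TH38.CX Pool.Agent.TH38.ZT Pool.Agent.V5helper87.ZM

noncomputable section

section lin

variable {G M : Type} [Group G] [AddCommGroup M]

lemma lin_mul (f : G → M) (r s : ZG G) :
    lin f (r * s) = lin (fun g => lin (fun h => f (g * h)) s) r := by
  refine MonoidAlgebra.induction_linear r ?_ ?_ ?_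
  · simp
  · intro x y hx hy
    rw [add_mul, lin_add, lin_add, hx, hy]
  · intro g m
    refine MonoidAlgebra.induction_linear s ?_ ?_ ?_
    · simp
    · intro x y hx hy
      rw [mul_add, lin_add, hx, hy, lin_single, lin_single, lin_single, lin_add, smul_add]
    · intro h k
      rw [MonoidAlgebra.single_mul_single, lin_single, lin_single, lin_single, mul_smul]

lemma lin_zero_fun (r : ZG G) : lin (fun _ : G => (0 : M)) r = 0 := by
  refine MonoidAlgebra.induction_linear r ?_ ?_ ?_
  · simp
  · intro x y hx hy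
    rw [lin_add, hx, hy, add_zero]
  · intro g m
    rw [lin_single, smul_zero]

lemma lin_sum_fun {ι : Type} (s : Finset ι) (f : ι → G → M) (r : ZG G) :
    lin (fun h => ∑ i ∈ s, f i h) r = ∑ i ∈ s, lin (f i) r := by
  classical
  induction s using Finset.induction_on with
  | empty => simp [lin_zero_fun]
  | insert a s ha ih =>
    simp only [Finset.sum_insert ha]
    rw [lin_add_fun, ih]

lemma lin_const (m : ℤ) (r : ZG G) : lin (fun _ : G => m) r = augm G r * m := by
  refine MonoidAlgebra.induction_linear r ?_ ?_ ?_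
  · simp
  · intro x y hx hy
    rw [lin_add, hx, hy, map_add, add_mul]
  · intro g k
    rw [lin_single, augm_single, smul_eq_mul]

end lin

section kappa

variable {G : Type} [Group G] {C : Subgroup G} {m n : ℕ}

/-- the additive map `κ` defined by `K` -/
def kap (K : G → Fin m → Fin n → ZG C) (y : Fin m → ZG G) : Fin n → ZG C :=
  ∑ b, lin (fun h => K h b) (y b)

lemma kap_apply (K : G → Fin m → Fin n → ZG C) (y : Fin m → ZG G) (j : Fin n) :
    kap K y j = ∑ b, lin (fun h => K h b j) (y b) := by
  rw [kap, Finset.sum_apply]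
  exact Finset.sum_congr rfl fun b _ => lin_apply _ _ _

lemma kap_add (K : G → Fin m → Fin n → ZG C) (y z : Fin m → ZG G) :
    kap K (y + z) = kap K y + kap K z := by
  simp only [kap, Pi.add_apply, lin_add, Finset.sum_add_distrib]

lemma kap_zero (K : G → Fin m → Fin n → ZG C) : kap K 0 = 0 := by
  simp [kap]

lemma kap_sum (K : G → Fin m → Fin n → ZG C) {ι : Type} (s : Finset ι) (y : ι → Fin m → ZG G) :
    kap K (∑ i ∈ s, y i) = ∑ i ∈ s, kap K (y i) := by
  classical
  induction s using Finset.induction_on with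
  | empty => simp [kap_zero]
  | insert a s ha ih => rw [Finset.sum_insert ha, Finset.sum_insert ha, kap_add, ih]

lemma incl_single (c : C) (k : ℤ) :
    incl C (MonoidAlgebra.single c k) = MonoidAlgebra.single (c : G) k := by
  simp [incl]

lemma lin_incl_mul (f : G → Fin n → ZG C) (hf : ∀ (c : C) g, f (c * g) = sg c • f g) (r : ZG C)
    (s : ZG G) : lin f (incl C r * s) = r • lin f s := by
  refine MonoidAlgebra.induction_linear r ?_ ?_ ?_
  · simp
  · intro x y hx hy
    rw [map_add, add_mul, lin_add, hx, hy, add_smul]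
  · intro c k
    rw [incl_single]
    refine MonoidAlgebra.induction_linear s ?_ ?_ ?_
    · simp
    · intro x y hx hy
      rw [mul_add, lin_add, hx, hy, lin_add, smul_add]
    · intro h l
      rw [MonoidAlgebra.single_mul_single, lin_single, lin_single, hf, mul_smul]
      have h1 : (MonoidAlgebra.single c k : ZG C) = k • sg c := by
        rw [sg]
        simp
      rw [h1, smul_assoc, smul_comm (sg c) l (f h)]

lemma equi_smul {K : G → Fin m → Fin n → ZG C} (hK : Equi K) (b : Fin m) (c : C) (g : G) :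
    K (c * g) b = sg c • K g b := by
  funext j
  exact hK c g b j

lemma kap_incl {K : G → Fin m → Fin n → ZG C} (hK : Equi K) (r : ZG C) (y : Fin m → ZG G) :
    kap K (incl C r • y) = r • kap K y := by
  rw [kap, kap, Finset.smul_sum]
  refine Finset.sum_congr rfl fun b _ => ?_
  rw [Pi.smul_apply, smul_eq_mul]
  exact lin_incl_mul _ (fun c g => equi_smul hK b c g) r (y b)

/-- `x ↦ x ᵥ* M` as an additive map -/
def vmHom {R : Type} [Ring R] {a b : ℕ} (M : Matrix (Fin a) (Fin b) R) :
    (Fin a → R) →+ (Fin b → R) where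
  toFun x := x ᵥ* M
  map_zero' := Matrix.zero_vecMul _
  map_add' := Matrix.add_vecMul _

lemma vmHom_apply {R : Type} [Ring R] {a b : ℕ} (M : Matrix (Fin a) (Fin b) R) (x : Fin a → R) :
    vmHom M x = x ᵥ* M := rfl

lemma lin_vecMul {a b : ℕ} {R : Type} [Ring R] (f : G → Fin a → R) (M : Matrix (Fin a) (Fin b) R)
    (r : ZG G) : lin f r ᵥ* M = lin (fun h => f h ᵥ* M) r :=
  map_lin (vmHom M) f r

lemma kap_vecMul {m' n' : ℕ} {K : G → Fin m → Fin n → ZG C} {K' : G → Fin m' → Fin n' → ZG C}
    {D : Matrix (Fin m') (Fin m) (ZG G)} {E : Matrix (Fin n') (Fin n) (ZG C)}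
    (h : ∀ g a, ∑ b, lin (fun h => K (g * h) b) (D a b) = K' g a ᵥ* E) (y : Fin m' → ZG G) :
    kap K (y ᵥ* D) = kap K' y ᵥ* E := by
  have h1 : kap K' y ᵥ* E = ∑ a, lin (fun g => K' g a ᵥ* E) (y a) := by
    rw [kap, ← vmHom_apply, map_sum]
    exact Finset.sum_congr rfl fun a _ => lin_vecMul _ _ _
  rw [h1, kap]
  calc ∑ b, lin (fun h => K h b) ((y ᵥ* D) b)
      = ∑ b, ∑ a, lin (fun h => K h b) (y a * D a b) := by
        refine Finset.sum_congr rfl fun b _ => ?_
        rw [Matrix.vecMul, dotProduct, lin_sum]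
    _ = ∑ a, ∑ b, lin (fun h => K h b) (y a * D a b) := Finset.sum_comm
    _ = ∑ a, lin (fun g => K' g a ᵥ* E) (y a) := by
        refine Finset.sum_congr rfl fun a _ => ?_
        simp only [lin_mul, ← h]
        rw [lin_sum_fun]

end kappa

section eps

variable {G : Type} [Group G] {C : Subgroup G}

/-- the augmentation as a homomorphism -/
def epsHom {H : Type} [Group H] (Y : FinRes H) : (Fin (Y.n 0) → ZG H) →+ ℤ where
  toFun := eps Y
  map_zero' := by simp [eps]
  map_add' := eps_add Y

lemma epsHom_apply {H : Type} [Group H] (Y : FinRes H) (x : Fin (Y.n 0) → ZG H) :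
    epsHom Y x = eps Y x := rfl

lemma eps_lin {H : Type} [Group H] (Y : FinRes H) (f : G → Fin (Y.n 0) → ZG H) (r : ZG G) :
    eps Y (lin f r) = lin (fun h => eps Y (f h)) r := map_lin (epsHom Y) f r

lemma eps_kap (X : FinRes G) (Y : FinRes C) {K : G → Fin (X.n 0) → Fin (Y.n 0) → ZG C}
    (hK : ∀ g a, eps Y (K g a) = X.aug a) (y : Fin (X.n 0) → ZG G) : eps Y (kap K y) = eps X y := by
  rw [kap, ← epsHom_apply, map_sum, eps]
  refine Finset.sum_congr rfl fun b _ => ?_
  rw [epsHom_apply, eps_lin]
  simp only [hK, lin_const]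

end eps

theorem t_HTP : S_HTP := by
  intro G _ C X Y R F hF0 hF
  have hrow : ∀ i a, (fun j => ∑ b, lin (fun h => R.K i h b j) (F i a b)) = kap (R.K i) (F i a) :=
    fun i a => funext fun j => (kap_apply _ _ _).symm
  refine ⟨fun k => ?_, fun i => ?_⟩
  · rw [hrow 0 k, eps_kap X Y R.aug, hF0]
  · have h1 : ∀ i, (Matrix.of fun a j => ∑ b, lin (fun h => R.K i h b j) (F i a b)) =
        (fun a => kap (R.K i) (F i a) : Matrix (Fin (Y.n i)) (Fin (Y.n i)) (ZG C)) :=
      fun i => funext fun a => hrow i a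
    rw [h1, h1]
    funext a
    rw [Matrix.mul_apply_eq_vecMul, Matrix.mul_apply_eq_vecMul]
    have h2 : (Y.d i a ᵥ* (fun a => kap (R.K i) (F i a) : Matrix (Fin (Y.n i)) (Fin (Y.n i)) (ZG C))) =
        ∑ c, Y.d i a c • kap (R.K i) (F i c) := by
      funext j
      simp [Matrix.vecMul, dotProduct, Finset.sum_apply]
    rw [h2, ← kap_vecMul (R.chain i), ← Matrix.mul_apply_eq_vecMul, ← hF i,
      Matrix.mul_apply_eq_vecMul]
    have h3 : ((Y.d i).map (incl C) a ᵥ* F i) = ∑ c, incl C (Y.d i a c) • F i c := by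
      funext j
      simp [Matrix.vecMul, dotProduct, Finset.sum_apply]
    rw [h3, kap_sum]
    exact Finset.sum_congr rfl fun c _ => (kap_incl (R.equi i) _ _).symm

end

end Pool.Agent.V5helper81.ZM
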