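import Pool.Agent.V5helper81.ZM.HTP

/-!
# Project ZM, job KEX: a retraction which is eventually invariant
-/

set_option autoImplicit false

open scoped Matrix Pointwise

namespace Pool.Agent.V5helper81.ZM

open Pool.Agent.H919R4.ZS Pool.Agent.TH38.CX Pool.Agent.TH38.ZT Pool.Agent.V5helper87.ZM

noncomputable section

section sem

variable {G : Type} [Group G] {C : Subgroup G} [C.Normal]

lemma cj_single (t : G) (c : C) (k : ℤ) :
    cj C t (MonoidAlgebra.single c k) = MonoidAlgebra.single (MulAut.conjNormal t c) k := by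
  simp [cj]

lemma cj_sg (t : G) (c c' : C) (h : (c' : G) = t * c * t⁻¹) : cj C t (sg c) = sg c' := by
  rw [sg, cj_single]
  congr 1
  apply Subtype.ext
  rw [h]
  exact MulAut.conjNormal_apply t c

lemma augm_cj (t : G) (r : ZG C) : augm C (cj C t r) = augm C r := by
  refine MonoidAlgebra.induction_linear r ?_ ?_ ?_
  · simp
  · intro x y hx hy
    rw [map_add, map_add, map_add, hx, hy]
  · intro c k
    rw [cj_single, augm_single, augm_single]

/-- `sem` as a homomorphism -/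
def semHom (t : G) {n : ℕ} (τ : Matrix (Fin n) (Fin n) (ZG C)) :
    (Fin n → ZG C) →+ (Fin n → ZG C) where
  toFun := sem C t τ
  map_zero' := by
    have h : (fun b : Fin n => cj C t ((0 : Fin n → ZG C) b)) = 0 := by
      funext b
      simp
    rw [sem, h, Matrix.zero_vecMul]
  map_add' x y := by
    have h : (fun b : Fin n => cj C t ((x + y) b)) =
        (fun b => cj C t (x b)) + fun b => cj C t (y b) := by
      funext b
      simp
    rw [sem, h, Matrix.add_vecMul]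
    rfl

lemma semHom_apply (t : G) {n : ℕ} (τ : Matrix (Fin n) (Fin n) (ZG C)) (x : Fin n → ZG C) :
    semHom t τ x = sem C t τ x := rfl

lemma sem_smul (t : G) {n : ℕ} (τ : Matrix (Fin n) (Fin n) (ZG C)) (r : ZG C)
    (x : Fin n → ZG C) : sem C t τ (r • x) = cj C t r • sem C t τ x := by
  have h : (fun b : Fin n => cj C t ((r • x) b)) = cj C t r • fun b => cj C t (x b) := by
    funext b
    simp
  rw [sem, h, Matrix.smul_vecMul]
  rfl

lemma sem_vecMul {Y : FinRes C} {t : G} {τ : ∀ j, Matrix (Fin (Y.n j)) (Fin (Y.n j)) (ZG C)}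
    (h : IsLift Y t τ) (j : ℕ) (v : Fin (Y.n (j + 1)) → ZG C) :
    sem C t (τ (j + 1)) v ᵥ* Y.d j = sem C t (τ j) (v ᵥ* Y.d j) := by
  rw [sem, sem, Matrix.vecMul_vecMul, ← h.comm j, ← Matrix.vecMul_vecMul]
  congr 1
  funext b
  simp [Matrix.vecMul, dotProduct, map_sum, map_mul]

lemma eps_sem {Y : FinRes C} {t : G} {τ : ∀ j, Matrix (Fin (Y.n j)) (Fin (Y.n j)) (ZG C)}
    (h : IsLift Y t τ) (v : Fin (Y.n 0) → ZG C) : eps Y (sem C t (τ 0) v) = eps Y v := by
  rw [sem, eps_vecMul]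
  simp only [augm_cj, h.aug]
  rfl

end sem

/-- `S_FIL` for all indices at once -/
lemma fill (h1 : S_FIL) {G : Type} [Group G] (C : Subgroup G) (π : G → ℤ) (t : G)
    (hπ : ∀ g h, π (g * h) = π g + π h) (hC : ∀ g, g ∈ C ↔ π g = 0) (ht : π t = 1)
    (V W : Type) (aV : C → V → V) (aW : C → W → W) (dd : V → W) (P P' : V → V) (PW PW' : W → W)
    (e1 : ∀ c c' v, aV (c * c') v = aV c (aV c' v)) (e2 : ∀ c v, dd (aV c v) = aW c (dd v))
    (e3 : ∀ v, dd (P v) = PW (dd v)) (e4 : ∀ v, dd (P' v) = PW' (dd v))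
    (e5 : ∀ (c c' : C), (c' : G) = t * c * t⁻¹ → ∀ v, P (aV c v) = aV c' (P v))
    (e6 : ∀ (c c' : C), (c' : G) = t⁻¹ * c * t → ∀ v, P' (aV c v) = aV c' (P' v))
    (m : ℕ) (w : G → Fin m → W) (w1 : ∀ (c : C) g a, w (c * g) a = aW c (w g a))
    (w2 : ∀ g a, ∃ v, dd v = w g a)
    (w3 : ∃ N : ℤ, (∀ g, N ≤ π g → ∀ a, w (t * g) a = PW (w g a)) ∧
      ∀ g, π g ≤ -N → ∀ a, w (t⁻¹ * g) a = PW' (w g a)) :
    ∃ f : G → Fin m → V, (∀ (c : C) g a, f (c * g) a = aV c (f g a)) ∧ (∀ g a, dd (f g a) = w g a) ∧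
      ∃ N : ℤ, (∀ g, N ≤ π g → ∀ a, f (t * g) a = P (f g a)) ∧
        ∀ g, π g ≤ -N → ∀ a, f (t⁻¹ * g) a = P' (f g a) := by
  obtain ⟨N, hN, hN'⟩ := w3
  have key := fun a : Fin m => h1 G C π t hπ hC ht V W aV aW dd P P' PW PW' e1 e2 e3 e4 e5 e6
    (fun g => w g a) (fun c g => w1 c g a) (fun g => w2 g a)
    ⟨N, fun g hg => hN g hg a, fun g hg => hN' g hg a⟩
  choose f f1 f2 M f3 f4 using key
  refine ⟨fun g a => f a g, fun c g a => f1 a c g, fun g a => f2 a g, ∑ a, |M a|, ?_, ?_⟩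
  · intro g hg a
    refine f3 a g (le_trans ?_ hg)
    exact (le_abs_self _).trans
      (Finset.single_le_sum (f := fun a => |M a|) (fun b _ => abs_nonneg _) (Finset.mem_univ a))
  · intro g hg a
    refine f4 a g (le_trans hg (neg_le_neg ?_))
    exact (le_abs_self _).trans
      (Finset.single_le_sum (f := fun a => |M a|) (fun b _ => abs_nonneg _) (Finset.mem_univ a))

lemma lin_congr {G M : Type} [AddCommGroup M] {f f' : G → M} {r : ZG G}
    (h : ∀ g ∈ r.coeff.support, f g = f' g) : lin f r = lin f' r := by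
  rw [lin, lin]
  exact Finsupp.sum_congr fun g hg => by rw [h g hg]

section step

variable {G : Type} [Group G] {C : Subgroup G} {X : FinRes G} {Y : FinRes C}

/-- the families of boundaries -/
def ww (X : FinRes G) (Y : FinRes C) (i : ℕ) (K : G → Fin (X.n i) → Fin (Y.n i) → ZG C) (g : G)
    (a : Fin (X.n (i + 1))) : Fin (Y.n i) → ZG C :=
  ∑ b, lin (fun h => K (g * h) b) (X.d i a b)

/-- the condition used to continue -/
def GoodK (X : FinRes G) (Y : FinRes C) :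
    ∀ i, (G → Fin (X.n i) → Fin (Y.n i) → ZG C) → Prop
  | 0 => fun K => ∀ g a, eps Y (K g a) = X.aug a
  | i + 1 => fun K => ∀ g a, ww X Y (i + 1) K g a ᵥ* Y.d i = 0

lemma ww_exists (i : ℕ) (K : G → Fin (X.n i) → Fin (Y.n i) → ZG C) (hK : GoodK X Y i K) (g : G)
    (a : Fin (X.n (i + 1))) : ∃ v : Fin (Y.n (i + 1)) → ZG C, v ᵥ* Y.d i = ww X Y i K g a := by
  cases i with
  | zero =>
    refine (Y.exact_zero _).1 ?_
    change eps Y (ww X Y 0 K g a) = 0
    have h2 : eps X (X.d 0 a) = 0 := by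
      have := eps_d X (Pi.single a 1)
      rwa [Matrix.single_one_vecMul] at this
    rw [← h2, ww, ← epsHom_apply, map_sum, eps]
    refine Finset.sum_congr rfl fun b _ => ?_
    rw [epsHom_apply, eps_lin]
    have h3 : (fun h => eps Y (K (g * h) b)) = fun _ : G => X.aug b := funext fun h => hK (g * h) b
    rw [h3, lin_const]
  | succ j => exact (Y.exact_succ j _).1 (hK g a)

lemma good_next (i : ℕ) (K : G → Fin (X.n i) → Fin (Y.n i) → ZG C)
    (K' : G → Fin (X.n (i + 1)) → Fin (Y.n (i + 1)) → ZG C)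
    (h : ∀ g a, K' g a ᵥ* Y.d i = ww X Y i K g a) : GoodK X Y (i + 1) K' := by
  intro g a
  have e1 : ww X Y (i + 1) K' g a ᵥ* Y.d i =
      ∑ b, lin (fun h => ww X Y i K (g * h) b) (X.d (i + 1) a b) := by
    rw [ww, ← vmHom_apply, map_sum]
    refine Finset.sum_congr rfl fun b _ => ?_
    rw [vmHom_apply, lin_vecMul]
    simp only [h]
  rw [e1]
  calc ∑ b, lin (fun h => ww X Y i K (g * h) b) (X.d (i + 1) a b)
      = ∑ b, ∑ c, lin (fun x => K (g * x) c) (X.d (i + 1) a b * X.d i b c) := by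
        refine Finset.sum_congr rfl fun b _ => ?_
        simp only [ww]
        rw [lin_sum_fun]
        refine Finset.sum_congr rfl fun c _ => ?_
        rw [lin_mul]
        simp only [mul_assoc]
    _ = ∑ c, lin (fun x => K (g * x) c) ((X.d (i + 1) * X.d i) a c) := by
        rw [Finset.sum_comm]
        refine Finset.sum_congr rfl fun c _ => ?_
        rw [Matrix.mul_apply, lin_sum]
    _ = 0 := by
        rw [d_mul_d]
        simp

lemma ww_equi (i : ℕ) (K : G → Fin (X.n i) → Fin (Y.n i) → ZG C) (hK : Equi K) (c : C) (g : G)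
    (a : Fin (X.n (i + 1))) : ww X Y i K (c * g) a = sg c • ww X Y i K g a := by
  rw [ww, ww, Finset.smul_sum]
  refine Finset.sum_congr rfl fun b _ => ?_
  have h1 : (fun h => K ((c : G) * g * h) b) = fun h => sg c • K (g * h) b :=
    funext fun h => by rw [mul_assoc, equi_smul hK]
  rw [h1]
  exact (map_lin (DistribSMul.toAddMonoidHom (Fin (Y.n i) → ZG C) (sg c)) _ _).symm

lemma ww_ev [C.Normal] {π : G → ℤ} (hπ : ∀ g h, π (g * h) = π g + π h) {t : G} (i : ℕ)
    (K : G → Fin (X.n i) → Fin (Y.n i) → ZG C) (τ σ : Matrix (Fin (Y.n i)) (Fin (Y.n i)) (ZG C))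
    (hK : ∃ N : ℤ, (∀ g, N ≤ π g → ∀ a, K (t * g) a = sem C t τ (K g a)) ∧
      ∀ g, π g ≤ -N → ∀ a, K (t⁻¹ * g) a = sem C t⁻¹ σ (K g a)) :
    ∃ N : ℤ, (∀ g, N ≤ π g → ∀ a, ww X Y i K (t * g) a = sem C t τ (ww X Y i K g a)) ∧
      ∀ g, π g ≤ -N → ∀ a, ww X Y i K (t⁻¹ * g) a = sem C t⁻¹ σ (ww X Y i K g a) := by
  classical
  obtain ⟨N, h1, h2⟩ := hK
  let L : ℤ := ∑ a, ∑ b, ∑ h ∈ (X.d i a b).coeff.support, |π h|
  have hL : ∀ a b, ∀ h ∈ (X.d i a b).coeff.support, |π h| ≤ L := by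
    intro a b h hh
    have e1 : |π h| ≤ ∑ h ∈ (X.d i a b).coeff.support, |π h| :=
      Finset.single_le_sum (f := fun h => |π h|) (fun _ _ => abs_nonneg _) hh
    have e2 : ∑ h ∈ (X.d i a b).coeff.support, |π h| ≤
        ∑ b, ∑ h ∈ (X.d i a b).coeff.support, |π h| :=
      Finset.single_le_sum (f := fun b => ∑ h ∈ (X.d i a b).coeff.support, |π h|)
        (fun _ _ => Finset.sum_nonneg fun _ _ => abs_nonneg _) (Finset.mem_univ b)
    have e3 : ∑ b, ∑ h ∈ (X.d i a b).coeff.support, |π h| ≤ L :=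
      Finset.single_le_sum (f := fun a => ∑ b, ∑ h ∈ (X.d i a b).coeff.support, |π h|)
        (fun _ _ => Finset.sum_nonneg fun _ _ => Finset.sum_nonneg fun _ _ => abs_nonneg _)
        (Finset.mem_univ a)
    exact e1.trans (e2.trans e3)
  refine ⟨N + L, ?_, ?_⟩
  · intro g hg a
    rw [ww, ww, ← semHom_apply, map_sum]
    refine Finset.sum_congr rfl fun b _ => ?_
    rw [map_lin]
    refine lin_congr fun h hh => ?_
    rw [mul_assoc, semHom_apply]
    refine h1 _ ?_ b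
    have := (abs_le.1 (hL a b h hh)).1
    rw [hπ]
    linarith
  · intro g hg a
    rw [ww, ww, ← semHom_apply, map_sum]
    refine Finset.sum_congr rfl fun b _ => ?_
    rw [map_lin]
    refine lin_congr fun h hh => ?_
    rw [mul_assoc, semHom_apply]
    refine h2 _ ?_ b
    have := (abs_le.1 (hL a b h hh)).2
    rw [hπ]
    linarith

end step

theorem t_KEX (hF : S_FIL) : S_KEX := by
  intro G _ C _ π t hπ hC ht X Y τ σ hτ hσ
  have hsm : ∀ {n : ℕ} (c c' : C) (v : Fin n → ZG C), sg (c * c') • v = sg c • sg c' • v := by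
    intro n c c' v
    rw [← sg_mul, mul_smul]
  have hP : ∀ {n : ℕ} (T : Matrix (Fin n) (Fin n) (ZG C)) (c c' : C), (c' : G) = t * c * t⁻¹ →
      ∀ v, sem C t T (sg c • v) = sg c' • sem C t T v := by
    intro n T c c' h v
    rw [sem_smul, cj_sg t c c' h]
  have hP' : ∀ {n : ℕ} (T : Matrix (Fin n) (Fin n) (ZG C)) (c c' : C), (c' : G) = t⁻¹ * c * t →
      ∀ v, sem C t⁻¹ T (sg c • v) = sg c' • sem C t⁻¹ T v := by
    intro n T c c' h v
    rw [sem_smul, cj_sg t⁻¹ c c' (by rw [inv_inv]; exact h)]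
  -- the start
  obtain ⟨y0, hy0⟩ := Y.surj
  change eps Y y0 = 1 at hy0
  obtain ⟨K0, k1, k2, k3⟩ := fill hF C π t hπ hC ht (Fin (Y.n 0) → ZG C) ℤ (fun c v => sg c • v)
    (fun _ x => x) (eps Y) (sem C t (τ 0)) (sem C t⁻¹ (σ 0)) (fun x => x) (fun x => x)
    hsm (fun c v => by rw [eps_smul, sg, augm_single, one_mul]) (fun v => eps_sem hτ v)
    (fun v => eps_sem hσ v) (hP _) (hP' _) (X.n 0) (fun _ a => X.aug a) (fun _ _ _ => rfl)
    (fun g a => ⟨X.aug a • y0, by rw [eps_zsmul, hy0, mul_one]⟩)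
    ⟨0, fun _ _ _ => rfl, fun _ _ _ => rfl⟩
  obtain ⟨f, hf0, hf⟩ := dep_seq
    (α := fun i => {K : G → Fin (X.n i) → Fin (Y.n i) → ZG C // Equi K ∧
      (∃ N : ℤ, (∀ g, N ≤ π g → ∀ a, K (t * g) a = sem C t (τ i) (K g a)) ∧
        ∀ g, π g ≤ -N → ∀ a, K (t⁻¹ * g) a = sem C t⁻¹ (σ i) (K g a)) ∧ GoodK X Y i K})
    (fun i K K' => ∀ g a, ww X Y i K.1 g a = K'.1 g a ᵥ* Y.d i)
    ⟨K0, fun c g a j => by rw [k1]; rfl, k3, k2⟩ (by
      rintro i ⟨K, h1, h2, h3⟩
      obtain ⟨K', e1, e2, e3⟩ := fill hF C π t hπ hC ht (Fin (Y.n (i + 1)) → ZG C)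
        (Fin (Y.n i) → ZG C) (fun c v => sg c • v) (fun c v => sg c • v) (fun v => v ᵥ* Y.d i)
        (sem C t (τ (i + 1))) (sem C t⁻¹ (σ (i + 1))) (sem C t (τ i)) (sem C t⁻¹ (σ i))
        hsm (fun c v => Matrix.smul_vecMul _ _ _) (fun v => sem_vecMul hτ i v)
        (fun v => sem_vecMul hσ i v) (hP _) (hP' _) (X.n (i + 1)) (ww X Y i K)
        (fun c g a => ww_equi i K h1 c g a) (fun g a => ww_exists i K h3 g a)
        (ww_ev hπ i K (τ i) (σ i) h2)
      exact ⟨⟨K', fun c g a j => by rw [e1]; rfl, e3, good_next i K K' e2⟩,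
        fun g a => (e2 g a).symm⟩)
  refine ⟨⟨fun i => (f i).1, fun i => (f i).2.1, (f 0).2.2.2, fun i g a => hf i g a⟩,
    fun i => (f i).2.2.1⟩

end

end Pool.Agent.V5helper81.ZM
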